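import Pool.Agent.Run7.h716.ZW.Defs

/-! HALF1 and HALF2 of project ZW (helper716), by recursion. -/

set_option autoImplicit false

namespace Pool.Agent.Run7.h227.ZW

open Run7.h716.ZW

noncomputable section

/-- the recursion to the right. -/
def rec1 (g : ℤ → ℝ) (K : ℤ) (r x : ℝ) : ℕ → ℝ
  | 0 => x
  | n + 1 => r * rec1 g K r x n + g (K + n)

theorem t_HALF1 : S_HALF1 := by
  intro g a r hr hra hg hl hrt hup
  obtain ⟨K, c, hc, hK⟩ := hl
  obtain ⟨K', hK'⟩ := hrt
  have ha : 0 < a := hr.trans hra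
  have har : 0 < a - r := sub_pos.2 hra
  set K0 : ℤ := K - 1 with hK0
  let F : ℤ → ℝ := fun k => if k ≤ K0 then c * a ^ k / (a - r) else
    rec1 g K0 r (c * a ^ K0 / (a - r)) (k - K0).toNat
  have hF1 : ∀ k, k ≤ K0 → F k = c * a ^ k / (a - r) := fun k hk => if_pos hk
  have hF2 : ∀ n : ℕ, F (K0 + n) = rec1 g K0 r (c * a ^ K0 / (a - r)) n := by
    intro n
    rcases Nat.eq_zero_or_pos n with h | h
    · subst h
      rw [Nat.cast_zero, add_zero, hF1 K0 le_rfl]
      rfl
    · have h1 : ¬ (K0 + n ≤ K0) := by omega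
      show (if _ then _ else _) = _
      rw [if_neg h1]
      congr 1
      omega
  have hrec : ∀ k, F (k + 1) - r * F k = g k := by
    intro k
    rcases lt_or_ge k K0 with h | h
    · rw [hF1 k h.le, hF1 (k + 1) (by omega), hK k (by omega), zpow_add_one₀ ha.ne']
      field_simp
    · obtain ⟨n, hn⟩ : ∃ n : ℕ, k = K0 + n := ⟨(k - K0).toNat, by omega⟩
      have e : K0 + (n : ℤ) + 1 = K0 + ((n + 1 : ℕ) : ℤ) := by push_cast; ring
      rw [hn, e, hF2, hF2]
      show r * rec1 g K0 r (c * a ^ K0 / (a - r)) n + g (K0 + n) - _ = _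
      ring
  have hpos : ∀ k, 0 < F k := by
    intro k
    rcases le_or_gt k K0 with h | h
    · rw [hF1 k h]
      positivity
    · obtain ⟨n, hn⟩ : ∃ n : ℕ, k = K0 + n := ⟨(k - K0).toNat, by omega⟩
      rw [hn, hF2]
      clear hn h
      induction n with
      | zero => show 0 < c * a ^ K0 / (a - r); positivity
      | succ n ih =>
        show 0 < r * rec1 g K0 r (c * a ^ K0 / (a - r)) n + g (K0 + n)
        have := mul_pos hr ih
        have := hg (K0 + n)
        linarith
  have hge : ∀ k, g k ≤ (a - r) * F k := by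
    intro k
    rcases le_or_gt k K0 with h | h
    · rw [hF1 k h, hK k (by omega)]
      apply le_of_eq
      field_simp
    · obtain ⟨n, hn⟩ : ∃ n : ℕ, k = K0 + n := ⟨(k - K0).toNat, by omega⟩
      rw [hn]
      clear hn h
      induction n with
      | zero =>
        rw [Nat.cast_zero, add_zero, hF1 K0 le_rfl, hK K0 (by omega)]
        apply le_of_eq
        field_simp
      | succ n ih =>
        have e : K0 + ((n + 1 : ℕ) : ℤ) = K0 + (n : ℤ) + 1 := by push_cast; ring
        rw [e]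
        have h1 := hrec (K0 + n)
        have h2 := hup (K0 + n)
        have h3 : F (K0 + n + 1) = r * F (K0 + n) + g (K0 + n) := by linarith
        rw [h3]
        have h4 : r * g (K0 + n) ≤ r * ((a - r) * F (K0 + n)) := mul_le_mul_of_nonneg_left ih hr.le
        nlinarith
  refine ⟨F, fun k => (hpos k).le, ⟨0, hpos 0⟩, ⟨K, c / (a - r), by positivity, fun k hk => ?_⟩,
    ⟨K' + 1, F (K' + 1) / r ^ (K' + 1), div_pos (hpos _) (zpow_pos hr _), fun k hk => ?_⟩,
    fun k => ?_, fun k => ?_, hrec⟩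
  · rw [hF1 k (by omega)]
    ring
  · obtain ⟨n, hn⟩ : ∃ n : ℕ, k = K' + 1 + n := ⟨(k - (K' + 1)).toNat, by omega⟩
    rw [hn]
    clear hn hk
    induction n with
    | zero =>
      rw [Nat.cast_zero, add_zero, div_mul_cancel₀ _ (zpow_pos hr _).ne']
    | succ n ih =>
      have e : K' + 1 + ((n + 1 : ℕ) : ℤ) = K' + 1 + (n : ℤ) + 1 := by push_cast; ring
      have h1 := hrec (K' + 1 + n)
      rw [hK' (K' + 1 + n) (by omega)] at h1
      rw [e, zpow_add_one₀ hr.ne' (K' + 1 + n)]
      have h2 : F (K' + 1 + n + 1) = r * F (K' + 1 + n) := by linarith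
      rw [h2, ih]
      ring
  · have h1 := hrec k
    have h2 := hge k
    nlinarith
  · have h1 := hrec k
    have h2 := hg k
    linarith

theorem t_HALF2 : S_HALF2 := by
  intro g b r hb hbr hg hl hrt hlow
  obtain ⟨K, hK⟩ := hl
  obtain ⟨K', c, hc, hK'⟩ := hrt
  have hr : 0 < r := hb.trans hbr
  obtain ⟨G, h1, ⟨k0, h2⟩, ⟨K1, c1, hc1, h3⟩, ⟨K2, c2, hc2, h4⟩, h5, h6, h7⟩ :=
    t_HALF1 (fun j => g (-j - 1) / r) b⁻¹ r⁻¹ (inv_pos.2 hr) (inv_strictAnti₀ hb hbr)
      (fun j => div_nonneg (hg _) hr.le)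
      ⟨-K' - 1, c / (b * r), by positivity, fun k hk => by
        show g (-k - 1) / r = _
        rw [hK' (-k - 1) (by omega), sub_eq_add_neg, zpow_add₀ hb.ne', inv_zpow', zpow_neg_one]
        field_simp⟩
      ⟨-K - 1, fun k hk => by
        show g (-k - 1) / r = 0
        rw [hK (-k - 1) (by omega), zero_div]⟩
      (fun k => by
        show g (-(k + 1) - 1) / r ≤ b⁻¹ * (g (-k - 1) / r)
        have h := hlow (-(k + 1) - 1)
        have e : -(k + 1) - 1 + 1 = -k - 1 := by ring
        rw [e] at h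
        have h' : g (-(k + 1) - 1) ≤ b⁻¹ * g (-k - 1) := by
          rw [inv_mul_eq_div, le_div_iff₀ hb, mul_comm]
          exact h
        rw [← mul_div_assoc]
        exact div_le_div_of_nonneg_right h' hr.le)
  have e : ∀ k : ℤ, -(k + 1) + 1 = -k := fun k => by ring
  refine ⟨fun k => G (-k), fun k => h1 _, ⟨-k0, by simpa using h2⟩,
    ⟨-K2, c2, hc2, fun k hk => ?_⟩, ⟨-K1, c1, hc1, fun k hk => ?_⟩, fun k => ?_, fun k => ?_,
    fun k => ?_⟩
  · show G (-k) = _
    rw [h4 (-k) (by omega), inv_zpow', neg_neg]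
  · show G (-k) = _
    rw [h3 (-k) (by omega), inv_zpow', neg_neg]
  · have h := h6 (-(k + 1))
    rw [e, inv_mul_eq_div, div_le_iff₀ hr, mul_comm] at h
    exact h
  · have h := h5 (-(k + 1))
    rw [e, inv_mul_eq_div, le_div_iff₀ hb, mul_comm] at h
    exact h
  · have h := h7 (-(k + 1))
    rw [e] at h
    have e2 : - -(k + 1) - 1 = k := by ring
    simp only [e2] at h
    have h' : r * (G (-k) - r⁻¹ * G (-(k + 1))) = r * (g k / r) := by rw [h]
    rw [mul_div_cancel₀ _ hr.ne', mul_sub, ← mul_assoc, mul_inv_cancel₀ hr.ne', one_mul] at h'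
    show G (-(k + 1)) - r * G (-k) = -g k
    linarith

end

end Pool.Agent.Run7.h227.ZW

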